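import Pool.Agent.K1H42.FS.Main

set_option autoImplicit false

namespace Pool.Agent.K1H42.FS

open Matrix

theorem sse_of_gen {k : ℕ} {A : Matrix (Fin k) (Fin k) ℕ} {u r x : Fin k → ℕ} {w : Fin k → ℤ}
    (hw : ∑ j, w j * u j = 0)
    (hx : ∀ i j, (A i j : ℤ) = u i * r j - x i * w j) (h0 : ∑ i, (x i : ℤ) * w i = 0) :
    SSE A (full (r ⬝ᵥ u)) := by
  obtain ⟨a, ha⟩ : ∃ a : Fin k → ℕ, ∀ j, a j = (w j).toNat := ⟨_, fun _ => rfl⟩
  obtain ⟨b, hb⟩ : ∃ b : Fin k → ℕ, ∀ j, b j = (-w j).toNat := ⟨_, fun _ => rfl⟩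
  obtain ⟨C, hC⟩ : ∃ C : Matrix (Fin k) (Fin k) ℕ, ∀ i j, C i j = A i j - x i * b j :=
    ⟨fun i j => A i j - x i * b j, fun _ _ => rfl⟩
  have hab : ∀ j, (a j : ℤ) - b j = w j := fun j => by
    rw [ha, hb]
    omega
  have hle : ∀ i j, x i * b j ≤ A i j := by
    intro i j
    have h1 := hx i j
    rcases le_or_gt 0 (w j) with h | h
    · have : b j = 0 := by rw [hb]; omega
      rw [this, mul_zero]
      exact Nat.zero_le _
    · have h2 : (w j) = -(b j : ℤ) := by rw [hb]; omega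
      rw [h2] at h1
      zify
      have : (0 : ℤ) ≤ (u i : ℤ) * r j := by positivity
      linarith
  have hCb : C + vecMulVec x b = A := by
    ext i j
    rw [Matrix.add_apply, vecMulVec_apply, hC]
    exact Nat.sub_add_cancel (hle i j)
  have hCaZ : ∀ i j, (C i j : ℤ) = u i * r j - x i * a j := by
    intro i j
    rw [hC, Nat.cast_sub (hle i j)]
    push_cast
    have h1 := hx i j
    have h2 := hab j
    rw [← h2] at h1
    linear_combination h1
  have hCa : C + vecMulVec x a = vecMulVec u r := by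
    ext i j
    rw [Matrix.add_apply, vecMulVec_apply, vecMulVec_apply]
    have := hCaZ i j
    zify
    rw [this]
    ring
  have m1 : ∀ j, ∑ i, a i * C i j = ∑ i, b i * C i j := by
    intro j
    have h1 : ∑ i, ((a i : ℤ) * C i j - b i * C i j) = 0 := by
      have h2 : ∀ i, (a i : ℤ) * C i j - b i * C i j =
          (w i * u i) * r j - (x i * w i) * a j :=
        fun i => by
          rw [← hab i, hCaZ]
          ring
      rw [Finset.sum_congr rfl fun i _ => h2 i, Finset.sum_sub_distrib, ← Finset.sum_mul,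
        ← Finset.sum_mul, hw, h0]
      ring
    rw [Finset.sum_sub_distrib] at h1
    have h3 : ∑ i, (a i : ℤ) * C i j = ∑ i, (b i : ℤ) * C i j := by linarith
    exact_mod_cast h3
  have m2 : ∑ i, a i * x i = ∑ i, b i * x i := by
    have h1 : ∑ i, ((a i : ℤ) * x i - b i * x i) = 0 := by
      rw [← h0]
      refine Finset.sum_congr rfl fun i _ => ?_
      rw [← hab i]
      ring
    rw [Finset.sum_sub_distrib] at h1
    have h3 : ∑ i, (a i : ℤ) * x i = ∑ i, (b i : ℤ) * x i := by linarith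
    exact_mod_cast h3
  have s1 := sse_move C x b a (fun j => (m1 j).symm) m2.symm
  rw [hCb, hCa] at s1
  exact Relation.TransGen.trans s1 (sse_rank_one u r)

theorem zero_of_se_gen {k : ℕ} {A : Matrix (Fin k) (Fin k) ℕ} {u r x : Fin k → ℕ}
    {w : Fin k → ℤ} (hn : 0 < r ⬝ᵥ u) (hw : ∑ j, w j * u j = 0)
    (hx : ∀ i j, (A i j : ℤ) = u i * r j - x i * w j)
    (hSE : SE ℤ (toZ A) (toZ (full (r ⬝ᵥ u)))) : ∑ i, (x i : ℤ) * w i = 0 := by
  obtain ⟨n, hndef⟩ : ∃ n, n = r ⬝ᵥ u := ⟨_, rfl⟩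
  rw [← hndef] at hn hSE
  have hru : ∑ j, (r j : ℤ) * u j = n := by
    rw [hndef]
    simp [dotProduct]
  have hu : ∃ i, u i ≠ 0 := by
    by_contra hcon
    push Not at hcon
    rw [hndef] at hn
    simp [dotProduct, hcon] at hn
  obtain ⟨l, hl, R, S, h1, -, -, -⟩ := hSE
  have hone : ∀ l, (toZ A ^ l) *ᵥ (fun i => (u i : ℤ)) = fun i => (n : ℤ) ^ l * u i := by
    intro l
    induction l with
    | zero => simp
    | succ l ih =>
      rw [pow_succ', ← Matrix.mulVec_mulVec, ih]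
      ext i
      simp only [Matrix.mulVec, dotProduct, toZ, Matrix.map_apply]
      have h2 : ∀ j, (A i j : ℤ) * ((n : ℤ) ^ l * u j) =
          (n : ℤ) ^ l * u i * (r j * u j) - (n : ℤ) ^ l * x i * (w j * u j) := fun j => by
        rw [hx i j]
        ring
      rw [Finset.sum_congr rfl fun i _ => h2 i, Finset.sum_sub_distrib, ← Finset.mul_sum,
        ← Finset.mul_sum, hw, hru]
      ring
  have hwA : ∀ l, w ᵥ* (toZ A ^ l) = (-∑ i, (x i : ℤ) * w i) ^ l • w := by
    intro l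
    induction l with
    | zero => simp
    | succ l ih =>
      rw [pow_succ, ← Matrix.vecMul_vecMul, ih]
      ext j
      simp only [Matrix.vecMul, dotProduct, toZ, Matrix.map_apply, Pi.smul_apply, smul_eq_mul]
      have h2 : ∀ i, (-∑ i, (x i : ℤ) * w i) ^ l * w i * (A i j : ℤ) =
          (-∑ i, (x i : ℤ) * w i) ^ l * r j * (w i * u i) -
            (-∑ i, (x i : ℤ) * w i) ^ l * w j * (x i * w i) := fun i => by
        rw [hx i j]
        ring
      rw [Finset.sum_congr rfl fun i _ => h2 i, Finset.sum_sub_distrib, ← Finset.mul_sum,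
        ← Finset.mul_sum, hw]
      ring
  have hR : ∀ i, R i 0 * ∑ j, S 0 j * u j = (n : ℤ) ^ l * u i := by
    intro i
    have h2 := congrFun (hone l) i
    rw [h1] at h2
    simp only [Matrix.mulVec, dotProduct, Matrix.mul_apply, Fin.sum_univ_one] at h2
    rw [Finset.mul_sum, ← h2]
    exact Finset.sum_congr rfl fun j _ => by ring
  have hnl : (n : ℤ) ^ l ≠ 0 := pow_ne_zero _ (by exact_mod_cast hn.ne')
  have hs : (∑ j, S 0 j * (u j : ℤ)) ≠ 0 := by
    intro h
    obtain ⟨i, hi⟩ := hu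
    have h2 := hR i
    rw [h, mul_zero] at h2
    exact (mul_ne_zero hnl (by exact_mod_cast hi)) h2.symm
  have hwR : ∑ i, w i * R i 0 = 0 := by
    refine mul_right_cancel₀ hs ?_
    rw [Finset.sum_mul, zero_mul]
    have : ∀ i, w i * R i 0 * ∑ j, S 0 j * (u j : ℤ) = (n : ℤ) ^ l * (w i * u i) := fun i => by
      rw [mul_assoc, hR]
      ring
    rw [Finset.sum_congr rfl fun i _ => this i, ← Finset.mul_sum, hw, mul_zero]
  have hfin : ∀ j, (-∑ i, (x i : ℤ) * w i) ^ l * w j = 0 := by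
    intro j
    have h2 := congrFun (hwA l) j
    rw [h1, Pi.smul_apply, smul_eq_mul] at h2
    rw [← h2]
    simp only [Matrix.vecMul, dotProduct, Matrix.mul_apply, Fin.sum_univ_one]
    have : ∀ i, w i * (R i 0 * S 0 j) = w i * R i 0 * S 0 j := fun i => by ring
    rw [Finset.sum_congr rfl fun i _ => this i, ← Finset.sum_mul, hwR, zero_mul]
  by_contra hne
  have hz : ∀ j, w j = 0 := fun j => by
    rcases mul_eq_zero.mp (hfin j) with h | h
    · exact absurd (eq_zero_of_pow_eq_zero h) (neg_ne_zero.mpr hne)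
    · exact h
  exact hne (Finset.sum_eq_zero fun i _ => by rw [hz i, mul_zero])

theorem good_gen {k : ℕ} {A : Matrix (Fin k) (Fin k) ℕ} {u r x : Fin k → ℕ}
    {w : Fin k → ℤ} (hn : 0 < r ⬝ᵥ u) (hw : ∑ j, w j * u j = 0)
    (hx : ∀ i j, (A i j : ℤ) = u i * r j - x i * w j) : Good (r ⬝ᵥ u) A := by
  have e2 : A.trace = r ⬝ᵥ u ↔ ∑ i, (x i : ℤ) * w i = 0 := by
    have htr : (A.trace : ℤ) = ((r ⬝ᵥ u : ℕ) : ℤ) - ∑ i, (x i : ℤ) * w i := by
      rw [Matrix.trace, dotProduct]
      push_cast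
      rw [← Finset.sum_sub_distrib]
      refine Finset.sum_congr rfl fun i _ => ?_
      rw [Matrix.diag_apply, hx i i]
      ring
    constructor
    · intro h
      rw [h] at htr
      linarith
    · intro h
      rw [h, sub_zero] at htr
      exact_mod_cast htr
  have e1 : ∑ i, (x i : ℤ) * w i = 0 → SSE A (full (r ⬝ᵥ u)) := sse_of_gen hw hx
  have e3 : SE ℤ (toZ A) (toZ (full (r ⬝ᵥ u))) → ∑ i, (x i : ℤ) * w i = 0 :=
    zero_of_se_gen hn hw hx
  exact ⟨⟨se_of_sse, fun h => e1 (e3 (seZ_of_se h))⟩,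
    ⟨seZ_of_se, fun h => se_of_sse (e1 (e3 h))⟩,
    ⟨fun h => e2.mpr (e3 (seZ_of_se (se_of_sse h))), fun h => e1 (e2.mp h)⟩⟩

end Pool.Agent.K1H42.FS
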