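import Pool.Agent.K1H42.FS.Move

set_option autoImplicit false

namespace Pool.Agent.K1H42.FS

open Matrix

/-- The matrix `[C | X]`. -/
def UX {k s : ℕ} (C : Matrix (Fin k) (Fin k) ℕ) (X : Matrix (Fin k) (Fin s) ℕ) :
    Matrix (Fin k) (Fin k ⊕ Fin s) ℕ := Matrix.fromCols C X

/-- The identity matrix with the rows of `Y` added below. -/
def TY {k s : ℕ} (Y : Matrix (Fin s) (Fin k) ℕ) : Matrix (Fin k ⊕ Fin s) (Fin k) ℕ :=
  Matrix.fromRows 1 Y

theorem UTX {k s : ℕ} (C : Matrix (Fin k) (Fin k) ℕ) (X : Matrix (Fin k) (Fin s) ℕ)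
    (Y : Matrix (Fin s) (Fin k) ℕ) : UX C X * TY Y = C + X * Y := by
  ext i j
  rw [Matrix.mul_apply, Fintype.sum_sum_type, Matrix.add_apply, Matrix.mul_apply]
  simp [UX, TY, Matrix.one_apply]

theorem TUX {k s : ℕ} (C : Matrix (Fin k) (Fin k) ℕ) (X : Matrix (Fin k) (Fin s) ℕ)
    (Y Z : Matrix (Fin s) (Fin k) ℕ) (h1 : Y * C = Z * C) (h2 : Y * X = Z * X) :
    TY Y * UX C X = TY Z * UX C X := by
  have h1' : ∀ i j, ∑ l, Y i l * C l j = ∑ l, Z i l * C l j := fun i j => by
    rw [← Matrix.mul_apply, ← Matrix.mul_apply, h1]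
  have h2' : ∀ i j, ∑ l, Y i l * X l j = ∑ l, Z i l * X l j := fun i j => by
    rw [← Matrix.mul_apply, ← Matrix.mul_apply, h2]
  ext i j
  rw [Matrix.mul_apply, Matrix.mul_apply]
  rcases i with i | i
  · simp [UX, TY]
  · rcases j with j | j
    · simpa [UX, TY] using h1' i j
    · simpa [UX, TY] using h2' i j

theorem sse_moveX {k s : ℕ} (C : Matrix (Fin k) (Fin k) ℕ) (X : Matrix (Fin k) (Fin s) ℕ)
    (Y Z : Matrix (Fin s) (Fin k) ℕ) (h1 : Y * C = Z * C) (h2 : Y * X = Z * X) :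
    SSE (C + X * Y) (C + X * Z) := by
  classical
  let e : Fin k ⊕ Fin s ≃ Fin (k + s) := finSumFinEquiv
  have s1 : SSE (C + X * Y) ((TY Y * UX C X).submatrix e.symm e.symm) := by
    refine sse_of ((UX C X).submatrix id e.symm) ((TY Y).submatrix e.symm id) ?_ ?_
    · rw [Matrix.submatrix_mul_equiv, UTX]
      rfl
    · exact (Matrix.submatrix_mul_equiv (TY Y) (UX C X) e.symm (Equiv.refl _) e.symm).symm
  have s2 : SSE ((TY Z * UX C X).submatrix e.symm e.symm) (C + X * Z) := by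
    refine sse_of ((TY Z).submatrix e.symm id) ((UX C X).submatrix id e.symm) ?_ ?_
    · exact (Matrix.submatrix_mul_equiv (TY Z) (UX C X) e.symm (Equiv.refl _) e.symm).symm
    · rw [Matrix.submatrix_mul_equiv, UTX]
      rfl
  rw [TUX C X Y Z h1 h2] at s1
  exact Relation.TransGen.trans s1 s2

theorem sse_lag {k s n : ℕ} {A : Matrix (Fin k) (Fin k) ℕ} {p : Fin k} {c : Fin k → Fin s}
    {x : Fin k → ℕ} {W : Fin s → Fin k → ℤ} (hrow : ∀ i, ∑ j, A i j = n)
    (hsq : ∀ i j, (A * A) i j = (A * A) p j) (hW : LinearIndependent ℤ W)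
    (hx : ∀ i j, (A p j : ℤ) - A i j = x i * W (c i) j) : SSE A (full n) := by
  classical
  obtain ⟨V, hV1, hV2⟩ : ∃ V : Fin s → Fin k → ℤ,
      (∀ c', (∃ i, c i = c' ∧ x i ≠ 0) → V c' = W c') ∧
      (∀ c', (¬ ∃ i, c i = c' ∧ x i ≠ 0) → V c' = 0) :=
    ⟨fun c' => if (∃ i, c i = c' ∧ x i ≠ 0) then W c' else 0,
      fun c' h => if_pos h, fun c' h => if_neg h⟩
  have hxV : ∀ i j, (A p j : ℤ) - A i j = x i * V (c i) j := by
    intro i j
    rw [hx]
    by_cases h : x i = 0
    · rw [h]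
      simp
    · rw [hV1 (c i) ⟨i, rfl, h⟩]
  have hDsum : ∀ i, ∑ j, ((A p j : ℤ) - A i j) = 0 := by
    intro i
    have h3 : ∀ i, ∑ j, (A i j : ℤ) = n := fun i => by exact_mod_cast hrow i
    rw [Finset.sum_sub_distrib, h3, h3, sub_self]
  obtain ⟨X, hX⟩ : ∃ X : Matrix (Fin k) (Fin s) ℕ, ∀ i c', X i c' = if c i = c' then x i else 0 :=
    ⟨fun i c' => if c i = c' then x i else 0, fun _ _ => rfl⟩
  have hXs : ∀ (g : Fin s → ℤ) i, ∑ c', (X i c' : ℤ) * g c' = x i * g (c i) := by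
    intro g i
    rw [Finset.sum_eq_single (c i)]
    · rw [hX, if_pos rfl]
    · intro b _ hb
      rw [hX, if_neg (Ne.symm hb)]
      simp
    · intro h
      exact absurd (Finset.mem_univ _) h
  -- `D X = 0`
  have hDX : ∀ i c', ∑ j, ((A p j : ℤ) - A i j) * X j c' = 0 := by
    intro i
    have hli := Fintype.linearIndependent_iff.mp hW
      (fun c' => ∑ j, ((A p j : ℤ) - A i j) * X j c')
    apply hli
    ext l
    rw [Finset.sum_apply]
    simp only [Pi.smul_apply, smul_eq_mul, Pi.zero_apply]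
    have h1 : ∑ c', (∑ j, ((A p j : ℤ) - A i j) * X j c') * W c' l =
        ∑ j, ((A p j : ℤ) - A i j) * ((A p l : ℤ) - A j l) := by
      simp only [Finset.sum_mul]
      rw [Finset.sum_comm]
      refine Finset.sum_congr rfl fun j _ => ?_
      rw [hx j l, ← hXs (fun c' => W c' l) j, Finset.mul_sum]
      exact Finset.sum_congr rfl fun c' _ => by ring
    rw [h1]
    have h2 : ∑ j, ((A p j : ℤ) - A i j) * ((A p l : ℤ) - A j l) =
        (∑ j, ((A p j : ℤ) - A i j)) * A p l -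
          ((∑ j, (A p j : ℤ) * A j l) - ∑ j, (A i j : ℤ) * A j l) := by
      rw [Finset.sum_mul, ← Finset.sum_sub_distrib, ← Finset.sum_sub_distrib]
      exact Finset.sum_congr rfl fun j _ => by ring
    have h3 : ∑ j, (A p j : ℤ) * A j l = ∑ j, (A i j : ℤ) * A j l := by
      have h4 := hsq i l
      rw [Matrix.mul_apply, Matrix.mul_apply] at h4
      exact_mod_cast h4.symm
    rw [h2, hDsum, h3]
    ring
  have hVX : ∀ c' c'', ∑ j, V c' j * X j c'' = 0 := by
    intro c' c''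
    by_cases h : ∃ i, c i = c' ∧ x i ≠ 0
    · obtain ⟨i, hi, hi0⟩ := h
      have h1 := hDX i c''
      have hi0' : (x i : ℤ) ≠ 0 := by exact_mod_cast hi0
      refine mul_left_cancel₀ hi0' ?_
      rw [Finset.mul_sum, mul_zero, ← h1]
      refine Finset.sum_congr rfl fun j _ => ?_
      rw [hxV, hi]
      ring
    · rw [hV2 c' h]
      simp
  have hV0 : ∀ c', ∑ j, V c' j = 0 := by
    intro c'
    by_cases h : ∃ i, c i = c' ∧ x i ≠ 0
    · obtain ⟨i, hi, hi0⟩ := h
      have h1 := hDsum i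
      have hi0' : (x i : ℤ) ≠ 0 := by exact_mod_cast hi0
      refine mul_left_cancel₀ hi0' ?_
      rw [Finset.mul_sum, mul_zero, ← h1]
      refine Finset.sum_congr rfl fun j _ => ?_
      rw [hxV, hi]
    · rw [hV2 c' h]
      simp
  obtain ⟨a, ha⟩ : ∃ a : Matrix (Fin s) (Fin k) ℕ, ∀ c' j, a c' j = (V c' j).toNat :=
    ⟨fun c' j => (V c' j).toNat, fun _ _ => rfl⟩
  obtain ⟨b, hb⟩ : ∃ b : Matrix (Fin s) (Fin k) ℕ, ∀ c' j, b c' j = (-V c' j).toNat :=
    ⟨fun c' j => (-V c' j).toNat, fun _ _ => rfl⟩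
  obtain ⟨C, hC⟩ : ∃ C : Matrix (Fin k) (Fin k) ℕ, ∀ i j, C i j = A i j - x i * b (c i) j :=
    ⟨fun i j => A i j - x i * b (c i) j, fun _ _ => rfl⟩
  have hab : ∀ c' j, (a c' j : ℤ) - b c' j = V c' j := fun c' j => by
    rw [ha, hb]
    omega
  have hle : ∀ i j, x i * b (c i) j ≤ A i j := by
    intro i j
    have h1 := hxV i j
    rcases le_or_gt 0 (V (c i) j) with h | h
    · have : b (c i) j = 0 := by rw [hb]; omega
      rw [this, mul_zero]
      exact Nat.zero_le _
    · have h2 : V (c i) j = -(b (c i) j : ℤ) := by rw [hb]; omega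
      rw [h2] at h1
      zify
      have : (0 : ℤ) ≤ A p j := by positivity
      linarith
  have hXY : ∀ (Y : Matrix (Fin s) (Fin k) ℕ) i j, (X * Y) i j = x i * Y (c i) j := by
    intro Y i j
    rw [Matrix.mul_apply]
    have h1 := hXs (fun c' => (Y c' j : ℤ)) i
    exact_mod_cast h1
  have hCb : C + X * b = A := by
    ext i j
    rw [Matrix.add_apply, hXY, hC]
    exact Nat.sub_add_cancel (hle i j)
  have hCaZ : ∀ i j, (C i j : ℤ) = A p j - x i * a (c i) j := by
    intro i j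
    rw [hC, Nat.cast_sub (hle i j)]
    push_cast
    have h1 := hxV i j
    have h2 := hab (c i) j
    rw [← h2] at h1
    linear_combination -h1
  have hCa : C + X * a = vecMulVec (fun _ => 1) (A p) := by
    ext i j
    rw [Matrix.add_apply, hXY, vecMulVec_apply, one_mul]
    have := hCaZ i j
    zify
    rw [this]
    ring
  have m1 : a * C = b * C := by
    ext c' j
    rw [Matrix.mul_apply, Matrix.mul_apply]
    have h1 : ∑ i, ((a c' i : ℤ) * C i j - b c' i * C i j) = 0 := by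
      have h2 : ∀ i, (a c' i : ℤ) * C i j - b c' i * C i j =
          V c' i * A p j - V c' i * (x i * a (c i) j) := fun i => by
        rw [← hab c' i, hCaZ]
        ring
      rw [Finset.sum_congr rfl fun i _ => h2 i, Finset.sum_sub_distrib, ← Finset.sum_mul, hV0]
      have h3 : ∀ i, V c' i * (x i * (a (c i) j : ℤ)) =
          ∑ c'', V c' i * X i c'' * a c'' j := fun i => by
        rw [← hXs (fun c'' => (a c'' j : ℤ)) i, Finset.mul_sum]
        exact Finset.sum_congr rfl fun c'' _ => by ring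
      rw [Finset.sum_congr rfl fun i _ => h3 i, Finset.sum_comm]
      have h4 : ∀ c'', ∑ i, V c' i * X i c'' * (a c'' j : ℤ) = 0 := fun c'' => by
        rw [← Finset.sum_mul, hVX, zero_mul]
      rw [Finset.sum_congr rfl fun c'' _ => h4 c'']
      simp
    rw [Finset.sum_sub_distrib] at h1
    have h3 : ∑ i, (a c' i : ℤ) * C i j = ∑ i, (b c' i : ℤ) * C i j := by linarith
    exact_mod_cast h3
  have m2 : a * X = b * X := by
    ext c' c''
    rw [Matrix.mul_apply, Matrix.mul_apply]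
    have h1 : ∑ i, ((a c' i : ℤ) * X i c'' - b c' i * X i c'') = 0 := by
      rw [← hVX c' c'']
      refine Finset.sum_congr rfl fun i _ => ?_
      rw [← hab c' i]
      ring
    rw [Finset.sum_sub_distrib] at h1
    have h3 : ∑ i, (a c' i : ℤ) * X i c'' = ∑ i, (b c' i : ℤ) * X i c'' := by linarith
    exact_mod_cast h3
  have s1 := sse_moveX C X b a m1.symm m2.symm
  rw [hCb, hCa] at s1
  have s2 := sse_rank_one (fun _ : Fin k => 1) (A p)
  have h4 : A p ⬝ᵥ (fun _ : Fin k => 1) = n := by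
    rw [← hrow p]
    simp [dotProduct]
  rw [h4] at s2
  exact Relation.TransGen.trans s1 s2

end Pool.Agent.K1H42.FS
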