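import Pool.Agent.K1H42.FS.Struct

set_option autoImplicit false

namespace Pool.Agent.K1H42.FS

open Matrix

theorem se_of_sse {n m : ℕ} {A : Matrix (Fin n) (Fin n) ℕ} {B : Matrix (Fin m) (Fin m) ℕ}
    (h : SSE A B) : SE ℕ A B :=
  Pool.Agent.Y321.SE2.se_of_transGen (fun _ _ hXY => hXY) h

theorem seZ_of_se {n m : ℕ} {A : Matrix (Fin n) (Fin n) ℕ} {B : Matrix (Fin m) (Fin m) ℕ}
    (h : SE ℕ A B) : SE ℤ (toZ A) (toZ B) :=
  Pool.Agent.Y321.SE2.seZ_of_seN h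

theorem sse_transpose {n m : ℕ} {A : Matrix (Fin n) (Fin n) ℕ} {B : Matrix (Fin m) (Fin m) ℕ}
    (h : SSE A B) : SSE Aᵀ Bᵀ := by
  have h1 : ∀ X Y : Σ n : ℕ, Matrix (Fin n) (Fin n) ℕ, Elem X Y →
      Elem ⟨X.1, X.2ᵀ⟩ ⟨Y.1, Y.2ᵀ⟩ := by
    rintro X Y ⟨R, S, h1, h2⟩
    refine ⟨Sᵀ, Rᵀ, ?_, ?_⟩
    · show X.2ᵀ = Sᵀ * Rᵀ
      rw [h1, Matrix.transpose_mul]
    · show Y.2ᵀ = Rᵀ * Sᵀ
      rw [h2, Matrix.transpose_mul]
  exact Relation.TransGen.lift
    (fun X : Σ n : ℕ, Matrix (Fin n) (Fin n) ℕ =>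
      (⟨X.1, X.2ᵀ⟩ : Σ n : ℕ, Matrix (Fin n) (Fin n) ℕ)) h1 _ _ h

theorem se_transpose (k : Type) [CommSemiring k] {n m : ℕ} {A : Matrix (Fin n) (Fin n) k}
    {B : Matrix (Fin m) (Fin m) k} (h : SE k A B) : SE k Aᵀ Bᵀ := by
  obtain ⟨l, hl, R, S, h1, h2, h3, h4⟩ := h
  refine ⟨l, hl, Sᵀ, Rᵀ, ?_, ?_, ?_, ?_⟩
  · rw [← Matrix.transpose_pow, h1, Matrix.transpose_mul]
  · rw [← Matrix.transpose_pow, h2, Matrix.transpose_mul]
  · rw [← Matrix.transpose_mul, ← Matrix.transpose_mul, h4]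
  · rw [← Matrix.transpose_mul, ← Matrix.transpose_mul, h3]

/-- The statement for one matrix. -/
def Good {k : ℕ} (n : ℕ) (A : Matrix (Fin k) (Fin k) ℕ) : Prop :=
  (SSE A (full n) ↔ SE ℕ A (full n)) ∧ (SE ℕ A (full n) ↔ SE ℤ (toZ A) (toZ (full n))) ∧
    (SSE A (full n) ↔ A.trace = n)

theorem good_row {k n : ℕ} {A : Matrix (Fin k) (Fin k) ℕ} (hk : 0 < k)
    (hrow : ∀ i, ∑ j, A i j = n) (hr : (A.map (Nat.cast : ℕ → ℚ)).rank ≤ 2) : Good n A := by
  have hst : ∃ (p : Fin k) (x : Fin k → ℕ) (w : Fin k → ℤ), (∑ j, w j = 0) ∧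
      ∀ i j, (A p j : ℤ) - A i j = x i * w j := by
    rcases Nat.eq_zero_or_pos n with h0 | hn
    · have hz : ∀ i j, A i j = 0 := by
        intro i j
        have h1 := hrow i
        rw [h0] at h1
        exact (Finset.sum_eq_zero_iff.mp h1) j (Finset.mem_univ _)
      exact ⟨⟨0, hk⟩, fun _ => 0, fun _ => 0, by simp, fun i j => by simp [hz]⟩
    · exact struct hk hrow fun p i i' j j' => cross hn hrow hr p i i' j j'
  obtain ⟨p, x, w, hw, hx⟩ := hst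
  have htr := trace_struct hrow hx
  have e1 : ∑ i, (x i : ℤ) * w i = 0 → SSE A (full n) := sse_of_struct hrow hw hx
  have e2 : A.trace = n ↔ ∑ i, (x i : ℤ) * w i = 0 := by
    constructor
    · intro h
      rw [h] at htr
      linarith
    · intro h
      rw [h, sub_zero] at htr
      exact_mod_cast htr
  have e3 : SE ℤ (toZ A) (toZ (full n)) → ∑ i, (x i : ℤ) * w i = 0 := by
    intro h
    rcases Nat.eq_zero_or_pos n with h0 | hn
    · have hz : ∀ i j, A i j = 0 := by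
        intro i j
        have h1 := hrow i
        rw [h0] at h1
        exact (Finset.sum_eq_zero_iff.mp h1) j (Finset.mem_univ _)
      refine Finset.sum_eq_zero fun i _ => ?_
      rw [← hx i i, hz, hz]
      simp
    · exact zero_of_se hk hn hrow hw hx h
  exact ⟨⟨se_of_sse, fun h => e1 (e3 (seZ_of_se h))⟩,
    ⟨seZ_of_se, fun h => se_of_sse (e1 (e3 h))⟩,
    ⟨fun h => e2.mpr (e3 (seZ_of_se (se_of_sse h))), fun h => e1 (e2.mp h)⟩⟩

theorem good_transpose {k n : ℕ} {A : Matrix (Fin k) (Fin k) ℕ} (h : Good n Aᵀ) : Good n A := by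
  have t1 : SSE A (full n) ↔ SSE Aᵀ (full n) := ⟨fun h => sse_transpose h, fun h => by
    have := sse_transpose h
    rwa [Matrix.transpose_transpose] at this⟩
  have t2 : SE ℕ A (full n) ↔ SE ℕ Aᵀ (full n) := ⟨fun h => se_transpose ℕ h, fun h => by
    have := se_transpose ℕ h
    rwa [Matrix.transpose_transpose] at this⟩
  have t3 : SE ℤ (toZ A) (toZ (full n)) ↔ SE ℤ (toZ Aᵀ) (toZ (full n)) :=
    ⟨fun h => se_transpose ℤ h, fun h => se_transpose ℤ h⟩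
  obtain ⟨g1, g2, g3⟩ := h
  rw [Matrix.trace_transpose] at g3
  exact ⟨t1.trans (g1.trans t2.symm), t2.trans (g2.trans t3.symm), t1.trans g3⟩

theorem rank_of_det {A : Matrix (Fin 3) (Fin 3) ℕ} (h : (toZ A).det = 0) :
    (A.map (Nat.cast : ℕ → ℚ)).rank ≤ 2 := by
  have h1 : (A.map (Nat.cast : ℕ → ℚ)).det = 0 := by
    have h2 : (A.map (Nat.cast : ℕ → ℚ)) = (toZ A).map (Int.castRingHom ℚ) := by
      ext i j
      simp [toZ]
    rw [h2, ← RingHom.mapMatrix_apply, ← RingHom.map_det, h, map_zero]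
  obtain ⟨v, hv, hv0⟩ := Matrix.exists_mulVec_eq_zero_iff.mpr h1
  have h3 := LinearMap.finrank_range_add_finrank_ker (A.map (Nat.cast : ℕ → ℚ)).mulVecLin
  have h4 : LinearMap.ker (A.map (Nat.cast : ℕ → ℚ)).mulVecLin ≠ ⊥ := by
    intro hb
    have : v ∈ LinearMap.ker (A.map (Nat.cast : ℕ → ℚ)).mulVecLin := by
      rw [LinearMap.mem_ker, Matrix.mulVecLin_apply]
      exact hv0
    rw [hb] at this
    exact hv ((Submodule.mem_bot ℚ).mp this)
  have h5 := Submodule.one_le_finrank_iff.mpr h4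
  rw [Module.finrank_fin_fun] at h3
  rw [Matrix.rank]
  omega

theorem det_of_se {n : ℕ} {A : Matrix (Fin 3) (Fin 3) ℕ}
    (h : SE ℤ (toZ A) (toZ (full n))) : (toZ A).det = 0 := by
  obtain ⟨l, hl, R, S, h1, -, -, -⟩ := h
  have h2 : (R * S).det = 0 := by
    rw [Matrix.det_fin_three]
    simp only [Matrix.mul_apply, Fin.sum_univ_one]
    ring
  rw [← h1, Matrix.det_pow] at h2
  exact eq_zero_of_pow_eq_zero h2

end Pool.Agent.K1H42.FS
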