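import Pool.Agent.Y321.SE2.Trans

set_option autoImplicit false

namespace Pool.Agent.K1H42.FS

open Matrix

/-- Elementary equivalence of square matrices over `ℕ`: `A = R S`, `B = S R` for rectangular
matrices `R`, `S` over `ℕ`. -/
def Elem (X Y : Σ n : ℕ, Matrix (Fin n) (Fin n) ℕ) : Prop :=
  ∃ (R : Matrix (Fin X.1) (Fin Y.1) ℕ) (S : Matrix (Fin Y.1) (Fin X.1) ℕ),
    X.2 = R * S ∧ Y.2 = S * R

/-- Strong shift equivalence over `ℕ` (a finite chain of elementary equivalences). -/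
def SSE {n m : ℕ} (A : Matrix (Fin n) (Fin n) ℕ) (B : Matrix (Fin m) (Fin m) ℕ) : Prop :=
  Relation.TransGen Elem ⟨n, A⟩ ⟨m, B⟩

/-- Shift equivalence of square matrices over a semiring `k` (used for `k = ℕ` and `k = ℤ`). -/
def SE (k : Type) [Semiring k] {n m : ℕ} (A : Matrix (Fin n) (Fin n) k)
    (B : Matrix (Fin m) (Fin m) k) : Prop :=
  ∃ l, 1 ≤ l ∧ ∃ (R : Matrix (Fin n) (Fin m) k) (S : Matrix (Fin m) (Fin n) k),
    A ^ l = R * S ∧ B ^ l = S * R ∧ A * R = R * B ∧ S * A = B * S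

/-- The matrix `A` viewed over `ℤ`. -/
def toZ {n : ℕ} (A : Matrix (Fin n) (Fin n) ℕ) : Matrix (Fin n) (Fin n) ℤ :=
  A.map (Nat.cast : ℕ → ℤ)

/-- The `1 × 1` matrix `[n]` (the full `n`-shift). -/
def full (n : ℕ) : Matrix (Fin 1) (Fin 1) ℕ := fun _ _ => n

/-- An elementary step from explicit factors. -/
theorem sse_of {n m : ℕ} {A : Matrix (Fin n) (Fin n) ℕ} {B : Matrix (Fin m) (Fin m) ℕ}
    (R : Matrix (Fin n) (Fin m) ℕ) (S : Matrix (Fin m) (Fin n) ℕ) (hA : A = R * S)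
    (hB : B = S * R) : SSE A B :=
  Relation.TransGen.single ⟨R, S, hA, hB⟩

theorem sse_rank_one {k : ℕ} (u r : Fin k → ℕ) : SSE (vecMulVec u r) (full (r ⬝ᵥ u)) := by
  refine sse_of (Matrix.of fun i (_ : Fin 1) => u i) (Matrix.of fun (_ : Fin 1) j => r j) ?_ ?_
  · ext i j
    rw [Matrix.mul_apply]
    simp [vecMulVec_apply]
  · ext i j
    rw [Matrix.mul_apply]
    simp [full, dotProduct]

/-- The matrix `[C | x]`. -/
def UU {k : ℕ} (C : Matrix (Fin k) (Fin k) ℕ) (x : Fin k → ℕ) :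
    Matrix (Fin k) (Fin k ⊕ Fin 1) ℕ := fun i => Sum.elim (fun j => C i j) (fun _ => x i)

/-- The identity matrix with the row `a` added below. -/
def TT {k : ℕ} (a : Fin k → ℕ) : Matrix (Fin k ⊕ Fin 1) (Fin k) ℕ := fun s j =>
  Sum.elim (fun i => (1 : Matrix (Fin k) (Fin k) ℕ) i j) (fun _ => a j) s

theorem UT {k : ℕ} (C : Matrix (Fin k) (Fin k) ℕ) (x a : Fin k → ℕ) :
    UU C x * TT a = C + vecMulVec x a := by
  ext i j
  rw [Matrix.mul_apply]
  simp [UU, TT, vecMulVec_apply, Matrix.one_apply]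

theorem TU {k : ℕ} (C : Matrix (Fin k) (Fin k) ℕ) (x a b : Fin k → ℕ)
    (h1 : ∀ j, ∑ i, a i * C i j = ∑ i, b i * C i j) (h2 : ∑ i, a i * x i = ∑ i, b i * x i) :
    TT a * UU C x = TT b * UU C x := by
  ext s t
  rw [Matrix.mul_apply, Matrix.mul_apply]
  rcases s with s | s
  · simp [UU, TT]
  · rcases t with t | t
    · simpa [UU, TT] using h1 t
    · simpa [UU, TT] using h2

theorem sse_move {k : ℕ} (C : Matrix (Fin k) (Fin k) ℕ) (x a b : Fin k → ℕ)
    (h1 : ∀ j, ∑ i, a i * C i j = ∑ i, b i * C i j) (h2 : ∑ i, a i * x i = ∑ i, b i * x i) :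
    SSE (C + vecMulVec x a) (C + vecMulVec x b) := by
  classical
  let e : Fin k ⊕ Fin 1 ≃ Fin (k + 1) := finSumFinEquiv
  have s1 : SSE (C + vecMulVec x a) ((TT a * UU C x).submatrix e.symm e.symm) := by
    refine sse_of ((UU C x).submatrix id e.symm) ((TT a).submatrix e.symm id) ?_ ?_
    · rw [Matrix.submatrix_mul_equiv, UT]
      rfl
    · exact (Matrix.submatrix_mul_equiv (TT a) (UU C x) e.symm (Equiv.refl _) e.symm).symm
  have s2 : SSE ((TT b * UU C x).submatrix e.symm e.symm) (C + vecMulVec x b) := by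
    refine sse_of ((TT b).submatrix e.symm id) ((UU C x).submatrix id e.symm) ?_ ?_
    · exact (Matrix.submatrix_mul_equiv (TT b) (UU C x) e.symm (Equiv.refl _) e.symm).symm
    · rw [Matrix.submatrix_mul_equiv, UT]
      rfl
  rw [TU C x a b h1 h2] at s1
  exact Relation.TransGen.trans s1 s2

end Pool.Agent.K1H42.FS
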