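import Pool.Agent.K1H42.FS.Move

set_option autoImplicit false

namespace Pool.Agent.K1H42.FS

open Matrix

theorem cross {k n : ℕ} {A : Matrix (Fin k) (Fin k) ℕ} (hn : 0 < n)
    (hrow : ∀ i, ∑ j, A i j = n) (hr : (A.map (Nat.cast : ℕ → ℚ)).rank ≤ 2)
    (p i i' j j' : Fin k) :
    ((A p j : ℤ) - A i j) * ((A p j' : ℤ) - A i' j') =
      ((A p j' : ℤ) - A i j') * ((A p j : ℤ) - A i' j) := by
  classical
  obtain ⟨f, hf0, hf1, hf2⟩ : ∃ f : Fin 3 → Fin k, f 0 = p ∧ f 1 = i ∧ f 2 = i' :=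
    ⟨![p, i, i'], rfl, rfl, rfl⟩
  have h1 : ¬ LinearIndependent ℚ ((A.map (Nat.cast : ℕ → ℚ)).submatrix f id).row := by
    intro h
    have h2 := h.rank_matrix
    have h3 : (A.map (Nat.cast : ℕ → ℚ)).submatrix f id =
        (1 : Matrix (Fin k) (Fin k) ℚ).submatrix f id *
          A.map (Nat.cast : ℕ → ℚ) := by
      ext s t
      rw [Matrix.mul_apply]
      simp [Matrix.one_apply]
    have h4 : ((A.map (Nat.cast : ℕ → ℚ)).submatrix f id).rank ≤
        (A.map (Nat.cast : ℕ → ℚ)).rank := by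
      rw [h3]
      exact Matrix.rank_mul_le_right _ _
    rw [h2] at h4
    simp at h4
    omega
  rw [Fintype.not_linearIndependent_iff] at h1
  obtain ⟨c, hc, s, hs⟩ := h1
  have hc' : ∀ j, c 0 * (A p j : ℚ) + c 1 * A i j + c 2 * A i' j = 0 := fun j => by
    have := congrFun hc j
    simpa [Fin.sum_univ_three, Matrix.row, hf0, hf1, hf2] using this
  have hrowQ : ∀ i, ∑ j, (A i j : ℚ) = n := fun i => by exact_mod_cast hrow i
  have hsum : (c 0 + c 1 + c 2) * (n : ℚ) = 0 := by
    have h5 : ∑ j, (c 0 * (A p j : ℚ) + c 1 * A i j + c 2 * A i' j) = 0 :=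
      Finset.sum_eq_zero fun j _ => hc' j
    rw [Finset.sum_add_distrib, Finset.sum_add_distrib, ← Finset.mul_sum, ← Finset.mul_sum,
      ← Finset.mul_sum, hrowQ, hrowQ, hrowQ] at h5
    linear_combination h5
  have hnQ : (n : ℚ) ≠ 0 := by exact_mod_cast hn.ne'
  have hc0 : c 0 + c 1 + c 2 = 0 := by
    rcases mul_eq_zero.mp hsum with h | h
    · exact h
    · exact absurd h hnQ
  have e : ∀ j, c 1 * ((A p j : ℚ) - A i j) + c 2 * ((A p j : ℚ) - A i' j) = 0 := fun j => by
    linear_combination (A p j : ℚ) * hc0 - hc' j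
  have goalQ : ((A p j : ℚ) - A i j) * ((A p j' : ℚ) - A i' j') =
      ((A p j' : ℚ) - A i j') * ((A p j : ℚ) - A i' j) := by
    by_cases h1 : c 1 = 0
    · by_cases h2 : c 2 = 0
      · exfalso
        apply hs
        have h3 : c 0 = 0 := by rw [h1, h2, add_zero, add_zero] at hc0; exact hc0
        have h4 : ∀ s : Fin 3, c s = 0 := by
          rw [Fin.forall_fin_succ, Fin.forall_fin_succ, Fin.forall_fin_succ]
          exact ⟨h3, h1, h2, fun i => i.elim0⟩
        exact h4 s
      · refine mul_left_cancel₀ h2 ?_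
        linear_combination ((A p j : ℚ) - A i j) * e j' - ((A p j' : ℚ) - A i j') * e j
    · refine mul_left_cancel₀ h1 ?_
      linear_combination ((A p j' : ℚ) - A i' j') * e j - ((A p j : ℚ) - A i' j) * e j'
  exact_mod_cast goalQ

theorem struct {k n : ℕ} {A : Matrix (Fin k) (Fin k) ℕ} (hk : 0 < k)
    (hrow : ∀ i, ∑ j, A i j = n)
    (hX : ∀ p i i' j j' : Fin k, ((A p j : ℤ) - A i j) * ((A p j' : ℤ) - A i' j') =
      ((A p j' : ℤ) - A i j') * ((A p j : ℤ) - A i' j)) :
    ∃ (p : Fin k) (x : Fin k → ℕ) (w : Fin k → ℤ), (∑ j, w j = 0) ∧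
      ∀ i j, (A p j : ℤ) - A i j = x i * w j := by
  classical
  by_cases hcst : ∀ i i' j, A i j = A i' j
  · refine ⟨⟨0, hk⟩, fun _ => 0, fun _ => 0, by simp, fun i j => ?_⟩
    rw [hcst ⟨0, hk⟩ i j]
    simp
  · push Not at hcst
    obtain ⟨i0, i1, j0, h01⟩ := hcst
    obtain ⟨p, -, hp⟩ := Finset.exists_max_image Finset.univ (fun i => A i j0)
      ⟨i0, Finset.mem_univ _⟩
    have hle : ∀ i, A i j0 ≤ A p j0 := fun i => hp i (Finset.mem_univ _)
    obtain ⟨t, ht⟩ : ∃ t : Fin k → ℕ, ∀ i, t i = A p j0 - A i j0 := ⟨_, fun _ => rfl⟩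
    have htZ : ∀ i, (A p j0 : ℤ) - A i j0 = t i := fun i => by
      rw [ht, Nat.cast_sub (hle i)]
    obtain ⟨q, hq⟩ : ∃ q, t q ≠ 0 := by
      by_contra hcon
      push Not at hcon
      apply h01
      have e0 := hcon i0
      have e1 := hcon i1
      rw [ht] at e0 e1
      have := hle i0
      have := hle i1
      omega
    obtain ⟨x, hx, hg⟩ := Finset.extract_gcd t ⟨q, Finset.mem_univ q⟩
    obtain ⟨g, hgdef⟩ : ∃ g, g = Finset.univ.gcd t := ⟨_, rfl⟩
    rw [← hgdef] at hx
    have hx' : ∀ b, t b = g * x b := fun b => hx b (Finset.mem_univ _)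
    have hg0 : (g : ℤ) ≠ 0 := by
      intro h
      apply hq
      rw [hx' q]
      have : g = 0 := by exact_mod_cast h
      rw [this, zero_mul]
    have hxq : (x q : ℤ) ≠ 0 := by
      intro h
      apply hq
      rw [hx' q]
      have : x q = 0 := by exact_mod_cast h
      rw [this, mul_zero]
    have key : ∀ i j, ((A p j : ℤ) - A i j) * x q = x i * ((A p j : ℤ) - A q j) := by
      intro i j
      have h1 := hX p i q j j0
      rw [htZ, htZ, hx', hx'] at h1
      push_cast at h1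
      refine mul_left_cancel₀ hg0 ?_
      linear_combination h1
    have hdvd : ∀ j, (x q : ℤ) ∣ (A p j : ℤ) - A q j := by
      intro j
      have h1 : x q ∣ Finset.univ.gcd (fun i => x i * ((A p j : ℤ) - A q j).natAbs) := by
        refine Finset.dvd_gcd fun i _ => ⟨((A p j : ℤ) - A i j).natAbs, ?_⟩
        have h2 := congrArg Int.natAbs (key i j)
        rw [Int.natAbs_mul, Int.natAbs_mul, Int.natAbs_natCast, Int.natAbs_natCast] at h2
        rw [← h2, mul_comm]
      rw [Finset.gcd_mul_right, hg, one_mul, normalize_eq] at h1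
      exact Int.natCast_dvd.mpr h1
    choose w hw using hdvd
    refine ⟨p, x, w, ?_, ?_⟩
    · have h1 : (x q : ℤ) * ∑ j, w j = 0 := by
        rw [Finset.mul_sum]
        have h2 : ∀ j, (x q : ℤ) * w j = (A p j : ℤ) - A q j := fun j => (hw j).symm
        rw [Finset.sum_congr rfl fun j _ => h2 j, Finset.sum_sub_distrib]
        have h3 : ∀ i, ∑ j, (A i j : ℤ) = n := fun i => by exact_mod_cast hrow i
        rw [h3, h3, sub_self]
      rcases mul_eq_zero.mp h1 with h | h
      · exact absurd h hxq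
      · exact h
    · intro i j
      refine mul_right_cancel₀ hxq ?_
      rw [key i j, hw j]
      ring

theorem trace_struct {k n : ℕ} {A : Matrix (Fin k) (Fin k) ℕ} (hrow : ∀ i, ∑ j, A i j = n)
    {p : Fin k} {x : Fin k → ℕ} {w : Fin k → ℤ}
    (hx : ∀ i j, (A p j : ℤ) - A i j = x i * w j) :
    (A.trace : ℤ) = n - ∑ i, x i * w i := by
  have h1 : (n : ℤ) = ∑ j, (A p j : ℤ) := by
    rw [← hrow p]
    push_cast
    rfl
  rw [Matrix.trace, h1, ← Finset.sum_sub_distrib]
  push_cast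
  refine Finset.sum_congr rfl fun i _ => ?_
  rw [← hx i i, Matrix.diag_apply]
  ring

theorem sse_of_struct {k n : ℕ} {A : Matrix (Fin k) (Fin k) ℕ} (hrow : ∀ i, ∑ j, A i j = n)
    {p : Fin k} {x : Fin k → ℕ} {w : Fin k → ℤ} (hw : ∑ j, w j = 0)
    (hx : ∀ i j, (A p j : ℤ) - A i j = x i * w j) (h0 : ∑ i, (x i : ℤ) * w i = 0) :
    SSE A (full n) := by
  obtain ⟨a, ha⟩ : ∃ a : Fin k → ℕ, ∀ j, a j = (w j).toNat := ⟨_, fun _ => rfl⟩
  obtain ⟨b, hb⟩ : ∃ b : Fin k → ℕ, ∀ j, b j = (-w j).toNat := ⟨_, fun _ => rfl⟩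
  obtain ⟨C, hC⟩ : ∃ C : Matrix (Fin k) (Fin k) ℕ, ∀ i j, C i j = A i j - x i * b j :=
    ⟨fun i j => A i j - x i * b j, fun _ _ => rfl⟩
  have hab : ∀ j, (a j : ℤ) - b j = w j := fun j => by
    rw [ha, hb]
    omega
  have hle : ∀ i j, x i * b j ≤ A i j := by
    intro i j
    have h1 := hx i j
    rcases le_or_gt 0 (w j) with h | h
    · have : b j = 0 := by rw [hb]; omega
      rw [this, mul_zero]
      exact Nat.zero_le _
    · have h2 : (w j) = -(b j : ℤ) := by rw [hb]; omega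
      rw [h2] at h1
      zify
      have : (0 : ℤ) ≤ A p j := by positivity
      linarith
  have hCb : C + vecMulVec x b = A := by
    ext i j
    rw [Matrix.add_apply, vecMulVec_apply, hC]
    exact Nat.sub_add_cancel (hle i j)
  have hCaZ : ∀ i j, (C i j : ℤ) = A p j - x i * a j := by
    intro i j
    rw [hC, Nat.cast_sub (hle i j)]
    push_cast
    have h1 := hx i j
    have h2 := hab j
    rw [← h2] at h1
    linear_combination -h1
  have hCa : C + vecMulVec x a = vecMulVec (fun _ => 1) (A p) := by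
    ext i j
    rw [Matrix.add_apply, vecMulVec_apply, vecMulVec_apply, one_mul]
    have := hCaZ i j
    zify
    rw [this]
    ring
  have m1 : ∀ j, ∑ i, a i * C i j = ∑ i, b i * C i j := by
    intro j
    have h1 : ∑ i, ((a i : ℤ) * C i j - b i * C i j) = 0 := by
      have h2 : ∀ i, (a i : ℤ) * C i j - b i * C i j = w i * A p j - (x i * w i) * a j :=
        fun i => by
          rw [← hab i, hCaZ]
          ring
      rw [Finset.sum_congr rfl fun i _ => h2 i, Finset.sum_sub_distrib, ← Finset.sum_mul,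
        ← Finset.sum_mul, hw, h0]
      ring
    rw [Finset.sum_sub_distrib] at h1
    have h3 : ∑ i, (a i : ℤ) * C i j = ∑ i, (b i : ℤ) * C i j := by linarith
    exact_mod_cast h3
  have m2 : ∑ i, a i * x i = ∑ i, b i * x i := by
    have h1 : ∑ i, ((a i : ℤ) * x i - b i * x i) = 0 := by
      rw [← h0]
      refine Finset.sum_congr rfl fun i _ => ?_
      rw [← hab i]
      ring
    rw [Finset.sum_sub_distrib] at h1
    have h3 : ∑ i, (a i : ℤ) * x i = ∑ i, (b i : ℤ) * x i := by linarith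
    exact_mod_cast h3
  have s1 := sse_move C x b a (fun j => (m1 j).symm) m2.symm
  rw [hCb, hCa] at s1
  have s2 := sse_rank_one (fun _ : Fin k => 1) (A p)
  have h4 : A p ⬝ᵥ (fun _ : Fin k => 1) = n := by
    rw [← hrow p]
    simp [dotProduct]
  rw [h4] at s2
  exact Relation.TransGen.trans s1 s2

theorem zero_of_se {k n : ℕ} {A : Matrix (Fin k) (Fin k) ℕ} (hk : 0 < k) (hn : 0 < n)
    (hrow : ∀ i, ∑ j, A i j = n)
    {p : Fin k} {x : Fin k → ℕ} {w : Fin k → ℤ} (hw : ∑ j, w j = 0)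
    (hx : ∀ i j, (A p j : ℤ) - A i j = x i * w j)
    (hSE : SE ℤ (toZ A) (toZ (full n))) : ∑ i, (x i : ℤ) * w i = 0 := by
  obtain ⟨l, hl, R, S, h1, -, -, -⟩ := hSE
  have hone : ∀ l, (toZ A ^ l) *ᵥ (fun _ => 1) = fun _ => (n : ℤ) ^ l := by
    intro l
    induction l with
    | zero => simp
    | succ l ih =>
      rw [pow_succ', ← Matrix.mulVec_mulVec, ih]
      ext i
      have : ∑ j, (A i j : ℤ) = n := by exact_mod_cast hrow i
      simp only [Matrix.mulVec, dotProduct, toZ, Matrix.map_apply]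
      rw [← Finset.sum_mul, this]
      ring
  have hwA : ∀ l, w ᵥ* (toZ A ^ l) = (-∑ i, (x i : ℤ) * w i) ^ l • w := by
    intro l
    induction l with
    | zero => simp
    | succ l ih =>
      rw [pow_succ, ← Matrix.vecMul_vecMul, ih]
      ext j
      simp only [Matrix.vecMul, dotProduct, toZ, Matrix.map_apply, Pi.smul_apply, smul_eq_mul]
      have h2 : ∀ i, (-∑ i, (x i : ℤ) * w i) ^ l * w i * (A i j : ℤ) =
          (-∑ i, (x i : ℤ) * w i) ^ l * A p j * w i -
            (-∑ i, (x i : ℤ) * w i) ^ l * w j * (x i * w i) := fun i => by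
        have := hx i j
        linear_combination (-(-∑ i, (x i : ℤ) * w i) ^ l * w i) * this
      rw [Finset.sum_congr rfl fun i _ => h2 i, Finset.sum_sub_distrib, ← Finset.mul_sum,
        ← Finset.mul_sum, hw]
      ring
  have hR : ∀ i, R i 0 * ∑ j, S 0 j = (n : ℤ) ^ l := by
    intro i
    have h2 := congrFun (hone l) i
    rw [h1] at h2
    simp only [Matrix.mulVec, dotProduct, Matrix.mul_apply, Fin.sum_univ_one, mul_one] at h2
    rw [Finset.mul_sum]
    exact h2
  have hnl : (n : ℤ) ^ l ≠ 0 := pow_ne_zero _ (by exact_mod_cast hn.ne')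
  have hs : (∑ j, S 0 j) ≠ 0 := by
    intro h
    have := hR ⟨0, hk⟩
    rw [h, mul_zero] at this
    exact hnl this.symm
  have hwR : ∑ i, w i * R i 0 = 0 := by
    refine mul_right_cancel₀ hs ?_
    rw [Finset.sum_mul, zero_mul]
    have : ∀ i, w i * R i 0 * ∑ j, S 0 j = w i * (n : ℤ) ^ l := fun i => by
      rw [mul_assoc, hR]
    rw [Finset.sum_congr rfl fun i _ => this i, ← Finset.sum_mul, hw, zero_mul]
  have hfin : ∀ j, (-∑ i, (x i : ℤ) * w i) ^ l * w j = 0 := by
    intro j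
    have h2 := congrFun (hwA l) j
    rw [h1, Pi.smul_apply, smul_eq_mul] at h2
    rw [← h2]
    simp only [Matrix.vecMul, dotProduct, Matrix.mul_apply, Fin.sum_univ_one]
    have : ∀ i, w i * (R i 0 * S 0 j) = w i * R i 0 * S 0 j := fun i => by ring
    rw [Finset.sum_congr rfl fun i _ => this i, ← Finset.sum_mul, hwR, zero_mul]
  by_contra hne
  have hz : ∀ j, w j = 0 := fun j => by
    rcases mul_eq_zero.mp (hfin j) with h | h
    · exact absurd (eq_zero_of_pow_eq_zero h) (neg_ne_zero.mpr hne)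
    · exact h
  exact hne (Finset.sum_eq_zero fun i _ => by rw [hz i, mul_zero])

end Pool.Agent.K1H42.FS
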