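import Pool.Agent.K1H42.FS.Move

set_option autoImplicit false

namespace Pool.Agent.K1H42.FS

open Matrix

theorem sse_step {k : ℕ} {A B : Matrix (Fin k) (Fin k) ℕ} {y : Fin k → ℕ} {w : Fin k → ℤ}
    (hAB : ∀ i j, (B i j : ℤ) - A i j = y i * w j) (h0 : ∑ i, w i * (y i : ℤ) = 0)
    (hA : ∀ j, ∑ i, w i * (A i j : ℤ) = 0) : SSE A B := by
  obtain ⟨a, ha⟩ : ∃ a : Fin k → ℕ, ∀ j, a j = (w j).toNat := ⟨_, fun _ => rfl⟩
  obtain ⟨b, hb⟩ : ∃ b : Fin k → ℕ, ∀ j, b j = (-w j).toNat := ⟨_, fun _ => rfl⟩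
  obtain ⟨C, hC⟩ : ∃ C : Matrix (Fin k) (Fin k) ℕ, ∀ i j, C i j = A i j - y i * b j :=
    ⟨fun i j => A i j - y i * b j, fun _ _ => rfl⟩
  have hab : ∀ j, (a j : ℤ) - b j = w j := fun j => by
    rw [ha, hb]
    omega
  have hle : ∀ i j, y i * b j ≤ A i j := by
    intro i j
    have h1 := hAB i j
    rcases le_or_gt 0 (w j) with h | h
    · have : b j = 0 := by rw [hb]; omega
      rw [this, mul_zero]
      exact Nat.zero_le _
    · have h2 : w j = -(b j : ℤ) := by rw [hb]; omega
      rw [h2] at h1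
      zify
      have : (0 : ℤ) ≤ B i j := by positivity
      linarith
  have hCb : C + vecMulVec y b = A := by
    ext i j
    rw [Matrix.add_apply, vecMulVec_apply, hC]
    exact Nat.sub_add_cancel (hle i j)
  have hCZ : ∀ i j, (C i j : ℤ) = A i j - y i * b j := by
    intro i j
    rw [hC, Nat.cast_sub (hle i j)]
    push_cast
    rfl
  have hCa : C + vecMulVec y a = B := by
    ext i j
    rw [Matrix.add_apply, vecMulVec_apply]
    have h1 := hCZ i j
    have h2 := hAB i j
    rw [← hab j] at h2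
    zify
    rw [h1]
    linear_combination -h2
  have m1 : ∀ j, ∑ i, a i * C i j = ∑ i, b i * C i j := by
    intro j
    have h1 : ∑ i, ((a i : ℤ) * C i j - b i * C i j) = 0 := by
      have h2 : ∀ i, (a i : ℤ) * C i j - b i * C i j =
          w i * A i j - (w i * y i) * b j := fun i => by
        rw [← hab i, hCZ]
        ring
      rw [Finset.sum_congr rfl fun i _ => h2 i, Finset.sum_sub_distrib, ← Finset.sum_mul,
        hA, h0]
      ring
    rw [Finset.sum_sub_distrib] at h1
    have h3 : ∑ i, (a i : ℤ) * C i j = ∑ i, (b i : ℤ) * C i j := by linarith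
    exact_mod_cast h3
  have m2 : ∑ i, a i * y i = ∑ i, b i * y i := by
    have h1 : ∑ i, ((a i : ℤ) * y i - b i * y i) = 0 := by
      rw [← h0]
      refine Finset.sum_congr rfl fun i _ => ?_
      rw [← hab i]
      ring
    rw [Finset.sum_sub_distrib] at h1
    have h3 : ∑ i, (a i : ℤ) * y i = ∑ i, (b i : ℤ) * y i := by linarith
    exact_mod_cast h3
  have s1 := sse_move C y b a (fun j => (m1 j).symm) m2.symm
  rwa [hCb, hCa] at s1

theorem sse_tri {k s n : ℕ} {A : Matrix (Fin k) (Fin k) ℕ} {p : Fin k} {c : Fin k → Fin s}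
    {x : Fin k → ℕ} {W : Fin s → Fin k → ℤ} (hrow : ∑ j, A p j = n)
    (hW0 : ∀ c', ∑ j, W c' j = 0)
    (hx : ∀ i j, (A p j : ℤ) - A i j = x i * W (c i) j)
    (hN : ∀ c' c'' : Fin s, c' ≤ c'' →
      ∑ j, (if c j = c'' then W c' j * (x j : ℤ) else 0) = 0) : SSE A (full n) := by
  classical
  obtain ⟨B, hB⟩ : ∃ B : ℕ → Matrix (Fin k) (Fin k) ℕ,
      ∀ m i j, B m i j = if (c i : ℕ) < m then A p j else A i j :=
    ⟨fun m i j => if (c i : ℕ) < m then A p j else A i j, fun _ _ _ => rfl⟩
  have hstep : ∀ m, m < s → SSE (B m) (B (m + 1)) := by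
    intro m hm
    refine sse_step (y := fun i => if c i = ⟨m, hm⟩ then x i else 0) (w := W ⟨m, hm⟩) ?_ ?_ ?_
    · intro i j
      rw [hB, hB]
      by_cases h : c i = ⟨m, hm⟩
      · have h1 : (c i : ℕ) = m := congrArg Fin.val h
        rw [if_pos h, if_pos (by omega), if_neg (by omega), hx, h]
      · have h1 : (c i : ℕ) ≠ m := fun h1 => h (Fin.ext h1)
        rw [if_neg h]
        by_cases h2 : (c i : ℕ) < m
        · rw [if_pos (by omega), if_pos h2]
          simp
        · rw [if_neg (by omega), if_neg h2]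
          simp
    · rw [← hN ⟨m, hm⟩ ⟨m, hm⟩ le_rfl]
      refine Finset.sum_congr rfl fun i _ => ?_
      split_ifs <;> simp
    · intro j
      have h1 : ∀ i, W ⟨m, hm⟩ i * (B m i j : ℤ) = W ⟨m, hm⟩ i * A p j -
          ∑ c'' : Fin s, (if (⟨m, hm⟩ : Fin s) ≤ c'' then
            (if c i = c'' then W ⟨m, hm⟩ i * (x i : ℤ) else 0) * W c'' j else 0) := by
        intro i
        rw [Finset.sum_eq_single (c i)]
        · rw [hB]
          by_cases h : (c i : ℕ) < m
          · rw [if_pos h, if_neg (fun h2 => absurd (Fin.le_def.mp h2) (by simpa using h))]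
            ring
          · rw [if_neg h, if_pos (Fin.le_def.mpr (by simpa using h)), if_pos rfl]
            linear_combination (-W ⟨m, hm⟩ i) * hx i j
        · intro b _ hb
          rw [if_neg (Ne.symm hb)]
          simp
        · intro h
          exact absurd (Finset.mem_univ _) h
      rw [Finset.sum_congr rfl fun i _ => h1 i, Finset.sum_sub_distrib, ← Finset.sum_mul, hW0,
        Finset.sum_comm]
      have h2 : ∀ c'' : Fin s, ∑ i, (if (⟨m, hm⟩ : Fin s) ≤ c'' then
            (if c i = c'' then W ⟨m, hm⟩ i * (x i : ℤ) else 0) * W c'' j else 0) = 0 := by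
        intro c''
        by_cases h : (⟨m, hm⟩ : Fin s) ≤ c''
        · simp only [if_pos h]
          rw [← Finset.sum_mul, hN _ _ h, zero_mul]
        · simp only [if_neg h]
          simp
      rw [Finset.sum_congr rfl fun c'' _ => h2 c'']
      simp
  have hrefl : SSE (B 0) (B 0) := sse_of (B 0) 1 (by rw [Matrix.mul_one]) (by rw [Matrix.one_mul])
  have hall : ∀ m, m ≤ s → SSE (B 0) (B m) := by
    intro m
    induction m with
    | zero => exact fun _ => hrefl
    | succ m ih => exact fun h => Relation.TransGen.trans (ih (by omega)) (hstep m (by omega))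
  have h0 : B 0 = A := by
    ext i j
    rw [hB, if_neg (Nat.not_lt_zero _)]
  have hs : B s = vecMulVec (fun _ => 1) (A p) := by
    ext i j
    rw [hB, if_pos (c i).2, vecMulVec_apply, one_mul]
  have s1 := hall s le_rfl
  rw [h0, hs] at s1
  have s2 := sse_rank_one (fun _ : Fin k => 1) (A p)
  have h4 : A p ⬝ᵥ (fun _ : Fin k => 1) = n := by
    rw [← hrow]
    simp [dotProduct]
  rw [h4] at s2
  exact Relation.TransGen.trans s1 s2

end Pool.Agent.K1H42.FS
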